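import Mathlib
import Pool.Agent.Y793.Dy.Stm

/-!
# Infinitely many windows, the numbers `t` and `t + 1`
-/

set_option autoImplicit false

namespace Pool.Agent.Y975.Dy

open Finset Pool.Agent.Y793.Dy Pool.Agent.Helper352.Bed

theorem sum_bits (Y : ℕ) (v : ℕ) :
    ∑ i ∈ (range v).filter (fun i => Y.testBit i = true), 2 ^ i = Y % 2 ^ v := by
  induction v with
  | zero => simp [Nat.mod_one]
  | succ v ih =>
    rw [Finset.range_add_one, Finset.filter_insert, Nat.mod_pow_succ]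
    by_cases h : Y.testBit v = true
    · rw [if_pos h, Finset.sum_insert (by simp), ih]
      have h1 : Y / 2 ^ v % 2 = 1 := by
        rw [Nat.testBit_eq_decide_div_mod_eq] at h
        simpa using h
      rw [h1]
      ring
    · rw [if_neg h, ih]
      have h1 : Y / 2 ^ v % 2 = 0 := by
        rw [Nat.testBit_eq_decide_div_mod_eq] at h
        have : ¬ (Y / 2 ^ v % 2 = 1) := by simpa using h
        omega
      rw [h1]
      ring

theorem ss_row (c : ℕ → ℕ) (P : ℕ → Prop) (j : ℕ) (B : Finset ℕ) (h0 : P (2 * j))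
    (h1 : ∀ i ∈ B, P (2 * (j + i) + 1)) :
    SS c P (c (2 * j) + ∑ i ∈ B, c (2 * (j + i) + 1)) := by
  refine ⟨insert (2 * j) (B.image fun i => 2 * (j + i) + 1), ?_, ?_⟩
  · intro i hi
    rcases mem_insert.1 hi with rfl | hi
    · exact h0
    · obtain ⟨k, hk, rfl⟩ := mem_image.1 hi
      exact h1 k hk
  · rw [sum_insert, sum_image]
    · intro a _ b _ hab
      have : 2 * (j + a) + 1 = 2 * (j + b) + 1 := hab
      omega
    · intro hi
      obtain ⟨k, hk, h⟩ := mem_image.1 hi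
      omega

/-- good windows -/
theorem frequently_good (x : ℝ) (hx : 0 < x) (hne : ∀ k n : ℕ, (2 : ℝ) ^ k * x ≠ n) (u : ℕ)
    (hu : 1 ≤ u) (N : ℕ) : ∃ j, N ≤ j ∧
      ⌊(2 : ℝ) ^ (j + u) * x⌋₊ = 2 * ⌊(2 : ℝ) ^ (j + u - 1) * x⌋₊ + 1 := by
  by_contra hcon
  push Not at hcon
  have hd : ∀ k, N + u - 1 ≤ k → ⌊(2 : ℝ) ^ (k + 1) * x⌋₊ = 2 * ⌊(2 : ℝ) ^ k * x⌋₊ := by
    intro k hk
    have h1 := hcon (k + 1 - u) (by omega)
    rw [show k + 1 - u + u = k + 1 by omega, show k + 1 - 1 = k by omega] at h1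
    have h2 := floor_dbl (x := (2 : ℝ) ^ k * x) (by positivity)
    rw [← mul_assoc, ← pow_succ'] at h2
    omega
  have h0 := Nat.floor_le (a := (2 : ℝ) ^ (N + u - 1) * x) (by positivity)
  have hlt : (⌊(2 : ℝ) ^ (N + u - 1) * x⌋₊ : ℝ) < (2 : ℝ) ^ (N + u - 1) * x :=
    lt_of_le_of_ne h0 fun h => hne _ _ h.symm
  set ε := (2 : ℝ) ^ (N + u - 1) * x - ⌊(2 : ℝ) ^ (N + u - 1) * x⌋₊ with hε
  have hε0 : 0 < ε := by linarith
  obtain ⟨M, hM⟩ := pow_unbounded_of_one_lt (1 / ε) (one_lt_two : (1 : ℝ) < 2)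
  have h1 := (err_small hx (show N + u - 1 ≤ N + u - 1 + M by omega)
    (fun k hk _ => hd k hk)).2
  rw [← hε, pow_add] at h1
  have h2 : (2 : ℝ) ^ (N + u - 1) / (2 ^ (N + u - 1) * 2 ^ M) = 1 / 2 ^ M := by
    have : (2 : ℝ) ^ (N + u - 1) ≠ 0 := by positivity
    field_simp
  rw [h2, lt_div_iff₀ (by positivity)] at h1
  rw [div_lt_iff₀ hε0] at hM
  nlinarith

/-- the difference of the two sums of a window -/
theorem window (p q u Y j : ℕ) (θ : ℝ) (hθ : 0 < θ) (hY : p + q * Y = p * 2 ^ u)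
    (hYu : Y < 2 ^ u) : ∃ e ≤ u, cc (p * θ) (q * θ) (2 * (j + u)) =
      cc (p * θ) (q * θ) (2 * j) + ∑ i ∈ (range u).filter (fun i => Y.testBit i = true),
        cc (p * θ) (q * θ) (2 * (j + i) + 1) + e := by
  set B := (range u).filter (fun i => Y.testBit i = true) with hB
  have hBc : B.card ≤ u := by
    have := Finset.card_filter_le (range u) (fun i => Y.testBit i = true)
    rwa [card_range] at this
  have hsum : ∑ i ∈ B, 2 ^ i = Y := by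
    rw [hB, sum_bits, Nat.mod_eq_of_lt hYu]
  have hsumR : ∑ i ∈ B, (2 : ℝ) ^ i = Y := by exact_mod_cast hsum
  set z := (2 : ℝ) ^ j * θ with hz
  have hz0 : 0 < z := by positivity
  have hYR : (p : ℝ) + q * Y = p * 2 ^ u := by exact_mod_cast hY
  have ha : ∀ k, cc (p * θ) (q * θ) (2 * (j + k)) = ⌊(2 : ℝ) ^ k * (p * z)⌋₊ := by
    intro k
    rw [cc_even]
    congr 1
    rw [hz, pow_add]
    ring
  have hb : ∀ k, cc (p * θ) (q * θ) (2 * (j + k) + 1) = ⌊(2 : ℝ) ^ k * (q * z)⌋₊ := by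
    intro k
    rw [cc_odd]
    congr 1
    rw [hz, pow_add]
    ring
  have ha0 : cc (p * θ) (q * θ) (2 * j) = ⌊(p * z : ℝ)⌋₊ := by
    have := ha 0
    rw [add_zero, pow_zero, one_mul] at this
    exact this
  rw [ha, ha0, Finset.sum_congr rfl fun i _ => hb i]
  have h1 := Nat.floor_le (a := (2 : ℝ) ^ u * (p * z)) (by positivity)
  have h2 := Nat.lt_floor_add_one ((2 : ℝ) ^ u * (p * z))
  have h3 := Nat.floor_le (a := (p * z : ℝ)) (by positivity)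
  have h4 := Nat.lt_floor_add_one (p * z : ℝ)
  have h5 : (∑ i ∈ B, (⌊(2 : ℝ) ^ i * (q * z)⌋₊ : ℝ)) ≤ Y * (q * z) := by
    rw [← hsumR, Finset.sum_mul]
    exact Finset.sum_le_sum fun i _ => Nat.floor_le (by positivity)
  have h6 : Y * (q * z) - B.card ≤ ∑ i ∈ B, (⌊(2 : ℝ) ^ i * (q * z)⌋₊ : ℝ) := by
    have h7 : ∑ i ∈ B, ((2 : ℝ) ^ i * (q * z) - 1) ≤ ∑ i ∈ B, (⌊(2 : ℝ) ^ i * (q * z)⌋₊ : ℝ) :=
      Finset.sum_le_sum fun i _ => by
        have := Nat.lt_floor_add_one ((2 : ℝ) ^ i * (q * z))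
        linarith
    rw [Finset.sum_sub_distrib, ← Finset.sum_mul, hsumR] at h7
    simpa using h7
  have h8 : (2 : ℝ) ^ u * (p * z) = p * z + Y * (q * z) := by
    linear_combination (-z) * hYR
  have hBR : (B.card : ℝ) ≤ u := by exact_mod_cast hBc
  have hlow : ⌊(p * z : ℝ)⌋₊ + ∑ i ∈ B, ⌊(2 : ℝ) ^ i * (q * z)⌋₊ ≤
      ⌊(2 : ℝ) ^ u * (p * z)⌋₊ := by
    have h9 : ((⌊(p * z : ℝ)⌋₊ + ∑ i ∈ B, ⌊(2 : ℝ) ^ i * (q * z)⌋₊ : ℕ) : ℝ) <
        ((⌊(2 : ℝ) ^ u * (p * z)⌋₊ + 1 : ℕ) : ℝ) := by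
      push_cast
      linarith
    have h10 : ⌊(p * z : ℝ)⌋₊ + ∑ i ∈ B, ⌊(2 : ℝ) ^ i * (q * z)⌋₊ <
      ⌊(2 : ℝ) ^ u * (p * z)⌋₊ + 1 := by exact_mod_cast h9
    omega
  have hup : ⌊(2 : ℝ) ^ u * (p * z)⌋₊ <
      ⌊(p * z : ℝ)⌋₊ + ∑ i ∈ B, ⌊(2 : ℝ) ^ i * (q * z)⌋₊ + (u + 1) := by
    have h9 : ((⌊(2 : ℝ) ^ u * (p * z)⌋₊ : ℕ) : ℝ) <
        ((⌊(p * z : ℝ)⌋₊ + ∑ i ∈ B, ⌊(2 : ℝ) ^ i * (q * z)⌋₊ + (u + 1) : ℕ) : ℝ) := by
      push_cast
      linarith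
    exact_mod_cast h9
  obtain ⟨e, he⟩ := Nat.exists_eq_add_of_le hlow
  exact ⟨e, by omega, he⟩

theorem t_PAIR : S_PAIR := by
  intro p q u Y θ hp hpq hu hY hYu hbit hθ hne X G hG
  have hθ0 : 0 < θ := by linarith
  have hq0 : (0 : ℝ) < q := by exact_mod_cast (by omega : 0 < q)
  set B := (range u).filter (fun i => Y.testBit i = true) with hB
  set c := cc (p * θ) (q * θ) with hc
  have hfreq : ∀ N, ∃ j, N ≤ j ∧ ∃ e ≤ u,
      (c (2 * (j + u) + 1) = 2 * c (2 * (j + u - 1) + 1) + 1 ∧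
        c (2 * (j + u)) = c (2 * j) + ∑ i ∈ B, c (2 * (j + i) + 1) + e) := by
    intro N
    obtain ⟨j, hj, hgood⟩ := frequently_good (q * θ) (by positivity) hne u hu N
    obtain ⟨e, he, hw⟩ := window p q u Y j θ hθ0 hY hYu
    refine ⟨j, hj, e, he, ?_, hw⟩
    rw [hc, cc_odd, cc_odd]
    exact hgood
  obtain ⟨e, he, hee⟩ : ∃ e ≤ u, ∀ N, ∃ j, N ≤ j ∧
      (c (2 * (j + u) + 1) = 2 * c (2 * (j + u - 1) + 1) + 1 ∧
        c (2 * (j + u)) = c (2 * j) + ∑ i ∈ B, c (2 * (j + i) + 1) + e) := by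
    by_contra hcon
    push Not at hcon
    choose! N hN using hcon
    obtain ⟨j, hj, e, he, h1, h2⟩ := hfreq ((range (u + 1)).sup N)
    have h3 : N e ≤ j := (Finset.le_sup (f := N) (mem_range.2 (by omega))).trans hj
    exact hN e he j h3 h1 h2
  obtain ⟨j₁, hj₁, hg1, hw1⟩ := hee X
  obtain ⟨j₂, hj₂, hg2, hw2⟩ := hee (j₁ + G)
  have hmem : u - 1 ∈ B := by
    rw [hB, mem_filter]
    exact ⟨mem_range.2 (by omega), hbit⟩
  have hBmem : ∀ i ∈ B, i < u ∧ Y.testBit i = true := by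
    intro i hi
    rw [hB, mem_filter, mem_range] at hi
    exact hi
  have hdis : ∀ i, Rsv Y u j₁ i → ¬ Rsv Y u j₂ i := by
    intro i h1 h2
    have h3 : i ≤ 2 * (j₁ + u) + 1 := by
      rcases h1 with h | ⟨k, hk, -, h⟩ | h | h <;> omega
    have h4 : 2 * j₂ ≤ i := by
      rcases h2 with h | ⟨k, hk, -, h⟩ | h | h <;> omega
    omega
  refine ⟨j₁, j₂, (c (2 * j₁) + ∑ i ∈ B, c (2 * (j₁ + i) + 1)) +
    (c (2 * (j₂ + u)) + c (2 * (j₂ + (u - 1)) + 1)), hj₁, hj₂, ?_, ?_⟩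
  · apply SS.add hdis
    · exact ss_row c _ j₁ B (Or.inl rfl) fun i hi =>
        Or.inr (Or.inl ⟨i, (hBmem i hi).1, (hBmem i hi).2, rfl⟩)
    · refine ⟨{2 * (j₂ + u), 2 * (j₂ + (u - 1)) + 1}, ?_, ?_⟩
      · intro i hi
        rw [mem_insert, mem_singleton] at hi
        rcases hi with rfl | rfl
        · exact Or.inr (Or.inr (Or.inl rfl))
        · exact Or.inr (Or.inl ⟨u - 1, by omega, hbit, rfl⟩)
      · rw [sum_pair (by omega)]
  · have h5 : c (2 * j₁) + ∑ i ∈ B, c (2 * (j₁ + i) + 1) +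
        (c (2 * (j₂ + u)) + c (2 * (j₂ + (u - 1)) + 1)) + 1 =
        c (2 * (j₁ + u)) + (c (2 * j₂) + ∑ i ∈ insert u (B.erase (u - 1)),
          c (2 * (j₂ + i) + 1)) := by
      rw [sum_insert (by
        intro h
        exact absurd (hBmem u (mem_of_mem_erase h)).1 (lt_irrefl _))]
      have h6 := Finset.sum_erase_add B (fun i => c (2 * (j₂ + i) + 1)) hmem
      have h7 : j₂ + u - 1 = j₂ + (u - 1) := by omega
      rw [h7] at hg2
      omega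
    rw [h5]
    apply SS.add hdis
    · refine ⟨{2 * (j₁ + u)}, ?_, by rw [sum_singleton]⟩
      intro i hi
      rw [mem_singleton] at hi
      rw [hi]
      exact Or.inr (Or.inr (Or.inl rfl))
    · refine ss_row c _ j₂ _ (Or.inl rfl) fun i hi => ?_
      rcases mem_insert.1 hi with rfl | hi
      · exact Or.inr (Or.inr (Or.inr rfl))
      · have h8 := hBmem i (mem_of_mem_erase hi)
        exact Or.inr (Or.inl ⟨i, h8.1, h8.2, rfl⟩)

end Pool.Agent.Y975.Dy
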