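import Mathlib
import Pool.Agent.Y793.Dy.Stm

/-!
# Reduction to the numbers `p θ`, `q θ`, and the number `Y`
-/

set_option autoImplicit false

namespace Pool.Agent.Y975.Dy

open Finset Pool.Agent.Y793.Dy

theorem t_UY : S_UY := by
  intro p q hp hpq hqp hq
  have hcop : Nat.Coprime 2 q := (Nat.coprime_two_left).2 hq
  have hu : 1 ≤ q.totient := Nat.totient_pos.2 (by omega)
  have h1 : 2 ^ q.totient ≡ 1 [MOD q] := Nat.ModEq.pow_totient hcop
  have h2 : q ∣ 2 ^ q.totient - 1 :=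
    (Nat.modEq_iff_dvd' Nat.one_le_two_pow).1 h1.symm
  obtain ⟨c, hc⟩ := h2
  have h3 : 2 ^ q.totient = q * c + 1 := by
    have : 1 ≤ 2 ^ q.totient := Nat.one_le_two_pow
    omega
  have h4 : 2 ≤ 2 ^ q.totient := by
    calc 2 = 2 ^ 1 := rfl
      _ ≤ _ := Nat.pow_le_pow_right (by norm_num) hu
  have hc1 : 1 ≤ c := by
    rcases Nat.eq_zero_or_pos c with h | h
    · rw [h] at h3
      omega
    · exact h
  refine ⟨q.totient, p * c, hu, ?_, ?_, ?_⟩
  · rw [h3]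
    ring
  · rw [h3]
    have : p * c ≤ q * c := Nat.mul_le_mul_right c hpq.le
    omega
  · apply Nat.testBit_of_two_pow_le_and_two_pow_add_one_gt
    · have h5 : 2 ^ q.totient = 2 * 2 ^ (q.totient - 1) := by
        rw [← pow_succ', Nat.sub_add_cancel hu]
      have h6 : (q + 1) * c ≤ 2 * p * c := Nat.mul_le_mul_right c hqp
      have h7 : (q + 1) * c = q * c + c := by ring
      have h8 : 2 * p * c = 2 * (p * c) := by ring
      omega
    · rw [Nat.sub_add_cancel hu, h3]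
      have : p * c ≤ q * c := Nat.mul_le_mul_right c hpq.le
      omega

theorem core (α β : ℝ) (hβ : 0 < β) (m n v1 v2 : ℕ) (hm : 0 < m) (hn : Odd n)
    (hc : m.Coprime n) (hmn : m < n) (h : α * (2 ^ v2 * n) = β * (2 ^ v1 * m)) :
    ∃ (p q i j : ℕ) (θ : ℝ), 2 ≤ p ∧ p < q ∧ q + 1 ≤ 2 * p ∧ Odd q ∧ p.Coprime q ∧ 1 ≤ θ ∧
      (2 : ℝ) ^ i * α = p * θ ∧ (2 : ℝ) ^ j * β = q * θ := by
  classical
  have hex : ∃ s, n < m * 2 ^ (s + 1) := by
    refine ⟨n, ?_⟩
    calc n < 2 ^ n := Nat.lt_two_pow_self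
      _ ≤ 2 ^ (n + 1) := Nat.pow_le_pow_right (by norm_num) (by omega)
      _ = 1 * 2 ^ (n + 1) := (one_mul _).symm
      _ ≤ m * 2 ^ (n + 1) := Nat.mul_le_mul_right _ hm
  obtain ⟨s, hs1, hs2⟩ : ∃ s, n < m * 2 ^ (s + 1) ∧ m * 2 ^ s < n := by
    refine ⟨Nat.find hex, Nat.find_spec hex, ?_⟩
    rcases Nat.eq_zero_or_pos (Nat.find hex) with h0 | h0
    · rw [h0, pow_zero, mul_one]
      exact hmn
    · obtain ⟨s', hs'⟩ := Nat.exists_eq_succ_of_ne_zero h0.ne'
      have h1 := Nat.find_min hex (show s' < Nat.find hex by omega)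
      rw [hs']
      have h2 : m * 2 ^ (s' + 1) ≤ n := not_lt.1 h1
      refine lt_of_le_of_ne h2 fun h3 => ?_
      have h4 : Even n := by
        rw [← h3, pow_succ, ← mul_assoc, mul_comm]
        exact even_two_mul _
      exact (Nat.not_even_iff_odd.2 hn) h4
  obtain ⟨T, hT⟩ := pow_unbounded_of_one_lt ((n : ℝ) / β) (one_lt_two : (1 : ℝ) < 2)
  have hn0 : (0 : ℝ) < n := by exact_mod_cast (by omega : 0 < n)
  have hp0 : 0 < m * 2 ^ s := Nat.mul_pos hm (Nat.two_pow_pos s)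
  have hq2 : n < 2 * (m * 2 ^ s) := by
    have : m * 2 ^ (s + 1) = 2 * (m * 2 ^ s) := by ring
    omega
  refine ⟨m * 2 ^ s, n, v2 + s + T, v1 + T, 2 ^ (v1 + T) * β / n, by omega, hs2, by omega, hn,
    ?_, ?_, ?_, ?_⟩
  · exact Nat.Coprime.mul_left hc (Nat.Coprime.pow_left s (Nat.coprime_two_left.2 hn))
  · rw [one_le_div hn0]
    have h1 : (n : ℝ) < 2 ^ T * β := (div_lt_iff₀ hβ).1 hT
    have h2 : (2 : ℝ) ^ T * β ≤ 2 ^ (v1 + T) * β := by
      apply mul_le_mul_of_nonneg_right _ hβ.le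
      exact pow_le_pow_right₀ (by norm_num) (by omega)
    linarith
  · push_cast
    rw [mul_div_assoc', eq_div_iff hn0.ne']
    rw [pow_add, pow_add, pow_add]
    linear_combination (2 : ℝ) ^ s * 2 ^ T * h
  · rw [mul_div_assoc', eq_div_iff hn0.ne']
    ring

theorem t_RED : S_RED := by
  intro α β hα hβ hirr hne
  unfold Irrational at hirr
  rw [not_not] at hirr
  obtain ⟨r, hr⟩ := hirr
  have hr0 : 0 < r := by
    have : (0 : ℝ) < r := by rw [hr]; exact div_pos hα hβ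
    exact_mod_cast this
  obtain ⟨a, ha⟩ : ∃ a : ℕ, r.num = a := Int.eq_ofNat_of_zero_le (Rat.num_nonneg.2 hr0.le)
  have ha0 : a ≠ 0 := by
    intro h
    rw [h] at ha
    have : 0 < r.num := Rat.num_pos.2 hr0
    omega
  have hcop : a.Coprime r.den := by
    have := r.reduced
    rw [ha] at this
    simpa using this
  have hab : α * r.den = β * a := by
    have h1 : (r : ℝ) = a / r.den := by
      have h2 : (r : ℝ) = (r.num : ℝ) / (r.den : ℝ) := by exact_mod_cast (Rat.num_div_den r).symm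
      rw [h2, ha]
      simp
    have hd : (r.den : ℝ) ≠ 0 := by exact_mod_cast r.den_nz
    rw [hr] at h1
    field_simp at h1
    linarith
  obtain ⟨v1, m, hm, hma⟩ := Nat.exists_eq_two_pow_mul_odd ha0
  obtain ⟨v2, n, hn, hnb⟩ := Nat.exists_eq_two_pow_mul_odd r.den_nz
  have hmn : m.Coprime n := by
    apply Nat.Coprime.coprime_dvd_left (show m ∣ a from ⟨2 ^ v1, by rw [hma]; ring⟩)
    exact Nat.Coprime.coprime_dvd_right (show n ∣ r.den from ⟨2 ^ v2, by rw [hnb]; ring⟩) hcop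
  rw [hma, hnb] at hab
  push_cast at hab
  have hm0 : 0 < m := hm.pos
  have hn0 : 0 < n := hn.pos
  rcases lt_trichotomy m n with h | h | h
  · obtain ⟨p, q, i, j, θ, h1, h2, h3, h4, h5, h6, h7, h8⟩ :=
      core α β hβ m n v1 v2 hm0 hn hmn h hab
    exact ⟨p, q, i, j, θ, h1, h2, h3, h4, h5, h6, Or.inl ⟨h7, h8⟩⟩
  · exfalso
    subst h
    have hm1 : (m : ℝ) ≠ 0 := by exact_mod_cast hm0.ne'
    have h1 : α * 2 ^ v2 = β * 2 ^ v1 := by
      apply mul_right_cancel₀ hm1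
      linear_combination hab
    apply hne ((v1 : ℤ) - v2)
    rw [zpow_sub₀ (by norm_num), zpow_natCast, zpow_natCast]
    have h2 : (2 : ℝ) ^ v2 ≠ 0 := by positivity
    field_simp
    linarith
  · obtain ⟨p, q, i, j, θ, h1, h2, h3, h4, h5, h6, h7, h8⟩ :=
      core β α hα n m v2 v1 hn0 hm hmn.symm h hab.symm
    exact ⟨p, q, i, j, θ, h1, h2, h3, h4, h5, h6, Or.inr ⟨h7, h8⟩⟩

end Pool.Agent.Y975.Dy
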